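import Pool.Agent.K3h83.IN.Asm

/-!
# The reduction for classes closed under subgroups of index prime to `p`
-/

set_option autoImplicit false
set_option linter.unusedSectionVars false
set_option linter.style.haveILetI false

open scoped BigOperators Classical

noncomputable section

namespace Pool.Agent.K3h83.PI

open Pool.Agent.K3h83.IN
open Pool.Agent.Helper884 Pool.Agent.K3h3.KB Pool.Agent.K3h3.MK
open Pool.Agent.H254R3.IN (IsIrr mem_Irr)
open IC (Irr)

/-- classes of groups closed under isomorphisms, subgroups of index prime to `p`, quotients and central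
extensions with cyclic kernel -/
structure ClsP (p : ℕ) (C : ∀ (G : Type) [Group G], Prop) : Prop where
  iso : ∀ (G H : Type) [Group G] [Group H] [Finite G], Nonempty (G ≃* H) → C G → C H
  sub : ∀ (G : Type) [Group G] [Finite G] (H : Subgroup G), ¬ p ∣ H.index → C G → C H
  quo : ∀ (G : Type) [Group G] [Finite G] (K : Subgroup G) [K.Normal], C G → C (G ⧸ K)
  ext : ∀ (G : Type) [Group G] [Finite G] (K : Subgroup G) [K.Normal], K ≤ Subgroup.center G →
    IsCyclic K → C (G ⧸ K) → C G

section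

variable {p : ℕ} [hp : Fact p.Prime]

theorem idx {G : Type} [Group G] [Finite G] (P : Sylow p G) {T : Subgroup G}
    (h : (P : Subgroup G) ≤ T) : ¬ p ∣ T.index := fun h1 =>
  P.not_dvd_index (h1.trans (Subgroup.index_dvd_of_le h))

/-- the index of the center of a quotient -/
theorem center_index_quot {S : Type} [Group S] [Finite S] (K Z : Subgroup S) [K.Normal]
    (hZ : Z ≤ Subgroup.center S) : (Subgroup.center (S ⧸ K)).index ≤ Z.index := by
  have hs := QuotientGroup.mk'_surjective K
  have h1 := Subgroup.index_dvd_of_le (map_center (QuotientGroup.mk' K) hs hZ)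
  have h2 := Subgroup.index_map_dvd Z hs
  exact Nat.le_of_dvd (Nat.pos_of_ne_zero Subgroup.FiniteIndex.index_ne_zero) (h1.trans h2)

theorem rel_inv (h3 : S3) (h4 : S4) (h5 : S5a) {C : ∀ (G : Type) [Group G], Prop} (hC : ClsP p C)
    {L T : Type} [Group L] [Finite L] [Group T] [Finite T] (j : L →* T)
    (hj : Function.Injective j) (hn : j.range.Normal) (θ : L → ℂ) (hθ : IsIrr θ)
    (hfix : ∀ x, fixes j θ x) (P : Sylow p T) (hT : C T)
    (hI : ∀ (Y : Type) [Group Y] [Finite Y], C Y → (Subgroup.center Y).index ≤ j.range.index →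
      Q1 p Y)
    (X : Subgroup T) (hX : X = j.range ⊔ NN P) (jX : L →* X) (hjX : ∀ l, (jX l : T) = j l) :
    wo (cl p) j θ = wo (cl p) jX θ := by
  haveI := hn
  have hrs : Function.Surjective (QuotientGroup.mk' j.range) := QuotientGroup.mk'_surjective _
  obtain ⟨S, _, _, q, lam, hq, hqc, hqy, key⟩ := h3 L T (T ⧸ j.range) j hj θ hθ hfix
    (QuotientGroup.mk' j.range) hrs (QuotientGroup.ker_mk' _)
  obtain ⟨Q, hQ⟩ := Sylow.mapSurjective_surjective hq p (P.mapSurjective hrs)
  have hQ' : (Q : Subgroup S).map q = (P : Subgroup T).map (QuotientGroup.mk' j.range) :=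
    congrArg (fun R : Sylow p (T ⧸ j.range) => (R : Subgroup (T ⧸ j.range))) hQ
  have hcomap : (X.map (QuotientGroup.mk' j.range)).comap q = NN Q := by
    have e1 := h5 p T _ (QuotientGroup.mk' j.range) hrs P
    have e2 : X.map (QuotientGroup.mk' j.range) = Subgroup.normalizer
        ((((P : Subgroup T).map (QuotientGroup.mk' j.range) : Subgroup (T ⧸ j.range))) :
          Set (T ⧸ j.range)) := by
      have e3 := e1
      rw [QuotientGroup.ker_mk', ← hX] at e3
      rw [← e3, Subgroup.map_comap_eq_self_of_surjective hrs]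
    rw [e2, ← hQ', comap_norm h5 q hq hqc Q]
  have k1 := key (RR p) (cl p) X jX hjX
  have k2 := key (RR p) (cl p) ⊤ (cod j ⊤ le_top) fun _ => rfl
  have t1 : wo (cl p) j θ = wo (cl p) (cod j ⊤ le_top) θ :=
    wo_congr (cl p) (MulEquiv.refl L) Subgroup.topEquiv.symm j _ (fun l => rfl) θ θ fun _ => rfl
  have htop : ((⊤ : Subgroup T).map (QuotientGroup.mk' j.range)).comap q = ⊤ := by
    rw [Subgroup.map_top_of_surjective _ hrs, Subgroup.comap_top]
  have hS : C S := by
    haveI : q.ker.Normal := inferInstance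
    refine hC.ext S q.ker hqc hqy ?_
    exact hC.iso (T ⧸ j.range) (S ⧸ q.ker)
      ⟨(QuotientGroup.quotientKerEquivOfSurjective q hq).symm⟩ (hC.quo T j.range hT)
  have hidx : q.ker.index = j.range.index :=
    Nat.card_congr (QuotientGroup.quotientKerEquivOfSurjective q hq).toEquiv
  have c := central h5 h4 q.ker hqc Q lam fun K _ hK _ =>
    hI (S ⧸ K) (hC.quo S K hS) ((center_index_quot K q.ker hqc).trans hidx.le)
  rw [t1, k2, k1, wo_incl_top (cl p) htop, c]
  congr 1
  exact (wo_incl (cl p) hcomap _ _ _).symm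

/-- the two ways to write an intersection -/
def swapEquiv {G : Type} [Group G] (T X : Subgroup G) : T.subgroupOf X ≃* X.subgroupOf T where
  toFun x := ⟨⟨x.1.1, x.2⟩, x.1.2⟩
  invFun x := ⟨⟨x.1.1, x.2⟩, x.1.2⟩
  left_inv _ := rfl
  right_inv _ := rfl
  map_mul' _ _ := rfl

theorem rel (h1 : S1) (h6 : S6) (h3 : S3) (h4 : S4) (h5 : S5a)
    {C : ∀ (G : Type) [Group G], Prop} (hC : ClsP p C)
    {L G : Type} [Group L] [Finite L] [Group G] [Finite G] (j : L →* G)
    (hj : Function.Injective j) (hn : j.range.Normal) (θ : L → ℂ) (hθ : IsIrr θ)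
    (P : Sylow p G) (hP : ∀ x ∈ P, fixes j θ x) (hG : C G)
    (hI : ∀ (Y : Type) [Group Y] [Finite Y], C Y → (Subgroup.center Y).index ≤ j.range.index →
      Q1 p Y)
    (X : Subgroup G) (hX : X = j.range ⊔ NN P) (jX : L →* X) (hjX : ∀ l, (jX l : G) = j l) :
    wo (cl p) j θ = wo (cl p) jX θ := by
  have hLX : j.range ≤ X := hX ▸ le_sup_left
  have hNX : NN P ≤ X := hX ▸ le_sup_right
  have hejX : jX = cod j X hLX := by
    ext l
    exact hjX l
  subst hejX
  have hLT : j.range ≤ Tst j hj hn θ := range_le_Tst j hj hn hθ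
  have hPT : (P : Subgroup G) ≤ Tst j hj hn θ := fun x hx => hP x hx
  have e1 := h1 (RR p) (cl p) L G j hj hn θ hθ (Tst j hj hn θ) (fun x => Iff.rfl)
    (cod j _ hLT) fun _ => rfl
  have hLTX : (cod j X hLX).range ≤ (Tst j hj hn θ).subgroupOf X := by
    rintro _ ⟨l, rfl⟩
    exact Subgroup.mem_subgroupOf.mpr (hLT ⟨l, rfl⟩)
  have e2 := h1 (RR p) (cl p) L X (cod j X hLX) (cod_inj hj X hLX) (cod_normal j hn X hLX) θ hθ
    ((Tst j hj hn θ).subgroupOf X)
    (fun x => by rw [Subgroup.mem_subgroupOf, fixes_sub hjX, mem_Tst])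
    (cod (cod j X hLX) _ hLTX) fun _ => rfl
  have e3 : cl p (Tst j hj hn θ).index = cl p ((Tst j hj hn θ).subgroupOf X).index :=
    cl_congr p (h6 p G P (Tst j hj hn θ) X hPT hNX)
  have hLXT : (cod j _ hLT).range ≤ X.subgroupOf (Tst j hj hn θ) := by
    rintro _ ⟨l, rfl⟩
    exact Subgroup.mem_subgroupOf.mpr (hLX ⟨l, rfl⟩)
  have e4 := rel_inv (p := p) h3 h4 h5 hC (cod j _ hLT) (cod_inj hj _ hLT) (cod_normal j hn _ hLT)
    θ hθ (fun x => (fixes_sub (fun _ => rfl) x).mpr x.2) (P.subtype hPT) (hC.sub G _ (idx P hPT) hG)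
    (fun Y _ _ hY hidx => hI Y hY (hidx.trans ?_)) (X.subgroupOf (Tst j hj hn θ))
    (by rw [hX, cod_range]; exact sup_subgroupOf P hn hPT hLT)
    (cod (cod j _ hLT) _ hLXT) fun _ => rfl
  · have e5 : wo (cl p) (cod (cod j X hLX) _ hLTX) θ = wo (cl p) (cod (cod j _ hLT) _ hLXT) θ :=
      wo_congr (cl p) (MulEquiv.refl L) (swapEquiv (Tst j hj hn θ) X) _ _ (fun _ => rfl) θ θ
        fun _ => rfl
    rw [e1, e2, e3, e4, e5]
  · rw [cod_range]
    have h7 : (j.range.subgroupOf (Tst j hj hn θ)).index ∣ j.range.index :=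
      Subgroup.relIndex_dvd_index_of_normal j.range _
    exact Nat.le_of_dvd (Nat.pos_of_ne_zero Subgroup.FiniteIndex.index_ne_zero) h7

/-- the total numbers -/
theorem D1 (h1 : S1) (h2 : S2) (h6 : S6) (h3 : S3) (h4 : S4) (h5 : S5a)
    {C : ∀ (G : Type) [Group G], Prop} (hC : ClsP p C)
    {L G : Type} [Group L] [Finite L] [Group G] [Finite G] (j : L →* G)
    (hj : Function.Injective j) (hn : j.range.Normal)
    (P : Sylow p G) (hG : C G)
    (hI : ∀ (Y : Type) [Group Y] [Finite Y], C Y → (Subgroup.center Y).index ≤ j.range.index →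
      Q1 p Y)
    (X : Subgroup G) (hX : X = j.range ⊔ NN P) :
    wt (cl p) G = wt (cl p) X := by
  have hLX : j.range ≤ X := hX ▸ le_sup_left
  have hNX : NN P ≤ X := hX ▸ le_sup_right
  have hPX : (P : Subgroup G) ≤ X := Subgroup.le_normalizer.trans hNX
  haveI := Fintype.ofFinite L
  have e1 := h2 p L G j hj hn P
  have e2 := h2 p L X (cod j X hLX) (cod_inj hj X hLX) (cod_normal j hn X hLX) (P.subtype hPX)
  have c0 : ∀ θ : L → ℂ, Nat.card {x : X // x ∈ NN (P.subtype hPX) ∧ fixes (cod j X hLX) θ x} =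
      Nat.card {x : G // x ∈ NN P ∧ fixes j θ x} := by
    intro θ
    refine Nat.card_congr
      { toFun := fun x => ⟨x.1.1, (mem_NN_subtype P hPX x.1).mp x.2.1,
          (fixes_sub (fun _ => rfl) x.1).mp x.2.2⟩
        invFun := fun x => ⟨⟨x.1, hNX x.2.1⟩, (mem_NN_subtype P hPX ⟨x.1, hNX x.2.1⟩).mpr x.2.1,
          (fixes_sub (fun _ => rfl) ⟨x.1, hNX x.2.1⟩).mpr x.2.2⟩
        left_inv := fun _ => rfl
        right_inv := fun _ => rfl }
  have c1 : Nat.card (NN (P.subtype hPX)) = Nat.card (NN P) := by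
    refine Nat.card_congr
      { toFun := fun x => ⟨x.1.1, (mem_NN_subtype P hPX x.1).mp x.2⟩
        invFun := fun x => ⟨⟨x.1, hNX x.2⟩, (mem_NN_subtype P hPX ⟨x.1, hNX x.2⟩).mpr x.2⟩
        left_inv := fun _ => rfl
        right_inv := fun _ => rfl }
  have c2 : (Irr L).filter (fun θ => ∀ x ∈ P.subtype hPX, fixes (cod j X hLX) θ x) =
      (Irr L).filter (fun θ => ∀ x ∈ P, fixes j θ x) := by
    refine Finset.filter_congr fun θ _ => ?_
    constructor
    · intro H x hx
      exact (fixes_sub (jX := cod j X hLX) (fun _ => rfl) ⟨x, hPX hx⟩).mp (H ⟨x, hPX hx⟩ hx)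
    · intro H x hx
      exact (fixes_sub (jX := cod j X hLX) (fun _ => rfl) x).mpr (H x hx)
  rw [c1, c2] at e2
  have e3 : (Nat.card (NN P) : RR p) * wt (cl p) G = (Nat.card (NN P) : RR p) * wt (cl p) X := by
    rw [e1, e2]
    refine Finset.sum_congr rfl fun θ hθ => ?_
    rw [Finset.mem_filter] at hθ
    rw [c0, rel h1 h6 h3 h4 h5 hC j hj hn θ (mem_Irr.mp hθ.1) P hθ.2 hG hI X hX (cod j X hLX)
      fun _ => rfl]
  exact natCast_mul_inj p Nat.card_pos.ne' e3

/-- the center is in the commutator subgroup -/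
theorem twist (h4 : S4) (h5 : S5a) (h14 : S14) (h17 : S17)
    {C : ∀ (G : Type) [Group G], Prop} (hC : ClsP p C)
    {G : Type} [Group G] [Finite G] (P : Sylow p G) (hG : C G)
    (hd : ¬ Subgroup.center G ≤ commutator G)
    (hI : ∀ (Y : Type) [Group Y] [Finite Y], C Y →
      (Subgroup.center Y).index ≤ (Subgroup.center G).index → Nat.card Y < Nat.card G → Q1 p Y)
    (nu : Subgroup.center G →* ℂˣ) :
    wo (cl p) (Subgroup.center G).subtype (fun a => ((nu a : ℂˣ) : ℂ)) =
        wo (cl p) (Subgroup.inclusion (le_NN_of_center P (le_refl (Subgroup.center G))))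
          (fun a => ((nu a : ℂˣ) : ℂ)) := by
  obtain ⟨D, hD⟩ : ∃ D : Subgroup G, D = Subgroup.center G ⊓ commutator G := ⟨_, rfl⟩
  have he : 0 < Nat.card D := Nat.card_pos
  obtain ⟨f, hf⟩ := h17 G (Subgroup.center G) (nu ^ Nat.card D) (by
    intro z hz
    have h1 : (z : G) ∈ D := hD ▸ ⟨z.2, hz⟩
    have h2 : z ^ Nat.card D = 1 := by
      apply Subtype.ext
      have h3 : (⟨(z : G), h1⟩ : D) ^ Nat.card D = 1 := pow_card_eq_one'
      have h4 : (((⟨(z : G), h1⟩ : D) ^ Nat.card D : D) : G) = 1 := by rw [h3]; rfl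
      rw [SubgroupClass.coe_pow] at h4 ⊢
      exact h4
    rw [MonoidHom.pow_apply, ← map_pow, h2, map_one])
  have hr : Function.Surjective (QuotientGroup.mk' (Subgroup.center G)) := QuotientGroup.mk'_surjective (Subgroup.center G)
  have hker : (QuotientGroup.mk' (Subgroup.center G)).ker = (Subgroup.center G) := QuotientGroup.ker_mk' (Subgroup.center G)
  obtain ⟨S, _, _, q, lam, hq, hqc, hqy, hcard, key⟩ := h14 G (G ⧸ (Subgroup.center G)) (Subgroup.center G) le_rfl nu (Nat.card D) he f
    (fun z => by rw [hf, MonoidHom.pow_apply]) (QuotientGroup.mk' (Subgroup.center G)) hr hker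
  obtain ⟨Q, hQ⟩ := Sylow.mapSurjective_surjective hq p (P.mapSurjective hr)
  have hQ' : (Q : Subgroup S).map q = (P : Subgroup G).map (QuotientGroup.mk' (Subgroup.center G)) :=
    congrArg (fun R : Sylow p (G ⧸ (Subgroup.center G)) => (R : Subgroup (G ⧸ (Subgroup.center G)))) hQ
  have hcomap : ((NN P).map (QuotientGroup.mk' (Subgroup.center G))).comap q = NN Q := by
    have e2 : (NN P).map (QuotientGroup.mk' (Subgroup.center G)) = Subgroup.normalizer
        ((((P : Subgroup G).map (QuotientGroup.mk' (Subgroup.center G)) : Subgroup (G ⧸ (Subgroup.center G)))) : Set (G ⧸ (Subgroup.center G))) := by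
      rw [← comap_norm h5 (QuotientGroup.mk' (Subgroup.center G)) hr (by rw [hker]) P,
        Subgroup.map_comap_eq_self_of_surjective hr]
    rw [e2, ← hQ', comap_norm h5 q hq hqc Q]
  have k1 := key (RR p) (cl p) (NN P) (le_NN_of_center P (le_refl (Subgroup.center G)))
  have k2 := key (RR p) (cl p) ⊤ le_top
  have t1 : wo (cl p) (Subgroup.inclusion (le_top : (Subgroup.center G) ≤ ⊤)) (fun a => ((nu a : ℂˣ) : ℂ)) =
      wo (cl p) (Subgroup.center G).subtype (fun a => ((nu a : ℂˣ) : ℂ)) := wo_incl_top (cl p) rfl _ _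
  have htop : ((⊤ : Subgroup G).map (QuotientGroup.mk' (Subgroup.center G))).comap q = ⊤ := by
    rw [Subgroup.map_top_of_surjective _ hr, Subgroup.comap_top]
  have hS : C S := by
    refine hC.ext S q.ker hqc hqy ?_
    exact hC.iso (G ⧸ (Subgroup.center G)) (S ⧸ q.ker)
      ⟨(QuotientGroup.quotientKerEquivOfSurjective q hq).symm⟩ (hC.quo G (Subgroup.center G) hG)
  have hidx : q.ker.index = (Subgroup.center G).index :=
    Nat.card_congr (QuotientGroup.quotientKerEquivOfSurjective q hq).toEquiv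
  have hcS : Nat.card S < Nat.card G := by
    have c1 : q.ker.index * Nat.card q.ker = Nat.card S := Subgroup.index_mul_card _
    have c2 : (Subgroup.center G).index * Nat.card (Subgroup.center G) = Nat.card G := Subgroup.index_mul_card _
    have c3 : Nat.card D < Nat.card (Subgroup.center G) := by
      have hle : D ≤ Subgroup.center G := hD ▸ inf_le_left
      refine lt_of_le_of_ne (Subgroup.card_le_of_le hle) fun h => hd ?_
      have := Subgroup.eq_of_le_of_card_ge hle h.ge
      rw [← this, hD]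
      exact inf_le_right
    have c4 : 0 < (Subgroup.center G).index := Nat.pos_of_ne_zero Subgroup.FiniteIndex.index_ne_zero
    rw [← c1, ← c2, hidx]
    exact Nat.mul_lt_mul_of_pos_left (lt_of_le_of_lt hcard c3) c4
  have c := central h5 h4 q.ker hqc Q lam fun K _ hK _ =>
    hI (S ⧸ K) (hC.quo S K hS) ((center_index_quot K q.ker hqc).trans hidx.le)
      (lt_of_le_of_lt (Nat.card_le_card_of_surjective _ (QuotientGroup.mk'_surjective K)) hcS)
  rw [← t1, k2, k1, wo_incl_top (cl p) htop, c]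
  exact (wo_incl (cl p) hcomap _ _ _).symm

/-- the relative bijection -/
theorem relBij (h1 : S1) (h6 : S6) (h3 : S3) (h4 : S4) (h5 : S5a) (h13 : S13)
    {C : ∀ (G : Type) [Group G], Prop} (hC : ClsP p C)
    (hQ : ∀ (Y : Type) [Group Y] [Finite Y], C Y → Q1 p Y)
    {G : Type} [Group G] [Finite G] (hG : C G) (P : Sylow p G) (L : Subgroup G) (hL : L.Normal)
    (θ : L → ℂ) (hθ : IsIrr θ) (hP : ∀ x ∈ P, fixes L.subtype θ x) :
    ∃ e : {χ : G → ℂ // IsIrr χ ∧ (ndeg χ : ZMod p) ≠ 0 ∧ ov L.subtype θ χ} ≃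
      {χ : (L ⊔ NN P : Subgroup G) → ℂ // IsIrr χ ∧ (ndeg χ : ZMod p) ≠ 0 ∧
        ov (Subgroup.inclusion (le_sup_left : L ≤ L ⊔ NN P)) θ χ},
      ∀ χ, ((ndeg χ.1 : ZMod p)) ^ 2 = (ndeg (e χ).1 : ZMod p) ^ 2 := by
  have hr : L.subtype.range = L := Subgroup.range_subtype L
  have e1 := rel (p := p) h1 h6 h3 h4 h5 hC L.subtype L.subtype_injective (by rw [hr]; exact hL) θ hθ P
    hP hG (fun Y _ _ hY _ => hQ Y hY) (L ⊔ NN P) (by rw [hr])
    (Subgroup.inclusion (le_sup_left : L ≤ L ⊔ NN P)) fun _ => rfl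
  haveI := Fintype.ofFinite G
  haveI := Fintype.ofFinite (L ⊔ NN P : Subgroup G)
  rw [wo_eq, wo_eq] at e1
  exact h13 p G (L ⊔ NN P : Subgroup G) _ _ e1

variable {p : ℕ} [hp : Fact p.Prime]

theorem main3 (h1 : S1) (h2 : S2) (h3 : S3) (h4 : S4) (h4a : S4a) (h5 : S5a) (h6 : S6) (h7 : S7a)
    (h8 : S8) (h9 : S9) (h12 : S12) (h14 : S14) (h15 : S15) (h16 : S16) (h17 : S17)
    (g1 : G1) (g2 : G2) (g3 : G3) (g4 : G4) (g5 : G5)
    {C : ∀ (G : Type) [Group G], Prop} (hC : ClsP p C)
    (hred : ∀ (G : Type) [Group G] [Finite G], C G → ∀ P : Sylow p G, Red2 P →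
      (∀ (Y : Type) [Group Y] [Finite Y], C Y →
        (Subgroup.center Y).index < (Subgroup.center G).index → Q1 p Y) →
      wt (cl p) G = wt (cl p) (NN P)) :
    ∀ (G : Type) [Group G] [Finite G], C G → Q1 p G := by
  have key : ∀ a b : ℕ, ∀ (G : Type) [Group G] [Finite G], C G → (Subgroup.center G).index = a →
      Nat.card G = b → Q1 p G := by
    intro a
    induction a using Nat.strong_induction_on with
    | _ a iha =>
    intro b
    induction b using Nat.strong_induction_on with
    | _ b ihb =>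
    intro G _ _ hG ha hb P
    have HI1 : ∀ (Y : Type) [Group Y] [Finite Y], C Y → (Subgroup.center Y).index < a → Q1 p Y :=
      fun Y _ _ hY h => iha _ h _ Y hY rfl rfl
    have HI2 : ∀ (Y : Type) [Group Y] [Finite Y], C Y → (Subgroup.center Y).index ≤ a →
        Nat.card Y < b → Q1 p Y := by
      intro Y _ _ hY h h'
      rcases h.lt_or_eq with h | h
      · exact HI1 Y hY h
      · exact ihb _ h' Y hY h rfl
    by_cases hN : NN P = ⊤
    · exact wt_top hN
    have HIq : ∀ (K : Subgroup G) [K.Normal], K ≤ Subgroup.center G → K ≠ ⊥ → Q1 p (G ⧸ K) := by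
      intro K _ hK hne
      refine HI2 (G ⧸ K) (hC.quo G K hG) ?_ ?_
      · rw [← ha]
        exact center_index_quot K _ le_rfl
      · rw [← hb]
        have h : Nat.card (G ⧸ K) * Nat.card K = Nat.card G := Subgroup.index_mul_card K
        have hK1 : 1 < Nat.card K := by
          rw [Subgroup.one_lt_card_iff_ne_bot]; exact hne
        have hq : 0 < Nat.card (G ⧸ K) := Nat.card_pos
        rw [← h]
        nlinarith
    by_cases hcyc : IsCyclic (Subgroup.center G)
    swap
    · exact D3m h4 h4a h5 P hcyc HIq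
    by_cases hder : Subgroup.center G ≤ commutator G
    swap
    · exact byfaith h4 h4a h5 P HIq fun nu _ => twist h4 h5 h14 h17 hC P hG hder
        (fun Y _ _ hY hi hc => HI2 Y hY (ha ▸ hi) (hb ▸ hc)) nu
    by_cases hpc : p ∣ Nat.card (Subgroup.center G)
    · exact byfaith h4 h4a h5 P HIq fun nu hnu => pcenter h15 h16 P hder hpc nu hnu
    by_cases hsup : ∀ N : Subgroup G, N.Normal → ¬ N ≤ Subgroup.center G → N ⊔ NN P = ⊤
    swap
    · push Not at hsup
      obtain ⟨N, hNn, hNc, hNs⟩ := hsup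
      haveI := hNn
      set M : Subgroup G := N ⊔ Subgroup.center G with hM
      have hMn : M.Normal := inferInstance
      have hcM : Subgroup.center G < M := by
        refine lt_of_le_of_ne le_sup_right fun h => hNc ?_
        rw [h]
        exact le_sup_left
      have hMi : M.index < a := ha ▸ Subgroup.index_strictAnti hcM
      have hMN : M ⊔ NN P = N ⊔ NN P := by
        rw [hM, sup_assoc, sup_eq_right.mpr (le_NN_of_center P (le_refl (Subgroup.center G)))]
      have hr : M.subtype.range = M := Subgroup.range_subtype M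
      set X : Subgroup G := M ⊔ NN P with hX
      have hNX : NN P ≤ X := le_sup_right
      have hPX : (P : Subgroup G) ≤ X := Subgroup.le_normalizer.trans hNX
      have e1 := D1 (p := p) h1 h2 h6 h3 h4 h5 hC M.subtype M.subtype_injective (by rw [hr]; exact hMn)
        P hG (fun Y _ _ hY hidx => HI1 Y hY (lt_of_le_of_lt hidx (by rw [hr]; exact hMi))) X
        (by rw [hr])
      have hZX : Subgroup.center G ≤ X := (le_of_lt hcM).trans le_sup_left
      have e2 : (Subgroup.center X).index < a := by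
        have i1 : (Subgroup.center G).subgroupOf X ≤ Subgroup.center X := by
          intro x hx
          rw [Subgroup.mem_center_iff]
          intro y
          exact Subtype.ext (Subgroup.mem_center_iff.mp (Subgroup.mem_subgroupOf.mp hx) y)
        have i2 := Subgroup.index_antitone i1
        have i3 : (Subgroup.center G).relIndex X * X.index = (Subgroup.center G).index :=
          Subgroup.relIndex_mul_index hZX
        have i4 : 1 < X.index := by
          have : X.index ≠ 1 := fun h => hNs (by rw [← hMN]; exact Subgroup.index_eq_one.mp h)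
          have h0 : X.index ≠ 0 := Subgroup.FiniteIndex.index_ne_zero
          omega
        have i5 : 0 < (Subgroup.center G).relIndex X := by
          apply Nat.pos_of_ne_zero
          intro h
          rw [h, zero_mul] at i3
          exact (Subgroup.FiniteIndex.index_ne_zero (H := Subgroup.center G)) i3.symm
        have i6 : (Subgroup.center X).index ≤ (Subgroup.center G).relIndex X := i2
        rw [← ha, ← i3]
        nlinarith
      rw [e1, HI1 X (hC.sub G X (idx P hPX) hG) e2 (P.subtype hPX)]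
      exact wt_congr (cl p)
        { toFun := fun x => ⟨x.1.1, (mem_NN_subtype P hPX x.1).mp x.2⟩
          invFun := fun x => ⟨⟨x.1, hNX x.2⟩, (mem_NN_subtype P hPX ⟨x.1, hNX x.2⟩).mpr x.2⟩
          left_inv := fun _ => rfl
          right_inv := fun _ => rfl
          map_mul' := fun _ _ => rfl }
    by_cases hab : ∀ A : Subgroup G, A.Normal → (∀ a ∈ A, ∀ b ∈ A, a * b = b * a) →
        A ≤ Subgroup.center G
    swap
    · push Not at hab
      obtain ⟨A, hA, hAab, hAc⟩ := hab
      obtain ⟨B, hB, hBA, hBc, hBp⟩ := h12 p G A hA hAab hAc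
      rcases hBp with hBp | hBp
      · exfalso
        apply hN
        rw [← hsup B hB hBc]
        exact (sup_eq_right.mpr ((le_sylow P hB hBp).trans Subgroup.le_normalizer)).symm
      · exact D2 h2 h7 h8 P B hB (fun a ha b hb => hAab a (hBA ha) b (hBA hb)) hBp (hsup B hB hBc)
    by_cases hrad : ∀ N : Subgroup G, N.Normal → IsSolvable N → N ≤ Subgroup.center G
    swap
    · push Not at hrad
      obtain ⟨B, hB, hBs, hBc⟩ := hrad
      exact byfaith h4 h4a h5 P HIq fun nu hnu => solv g1 g2 g3 g4 g5 P hN hpc hab hsup B hB hBs hBc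
        nu hnu
    by_cases hmono : ∀ N₁ N₂ : Subgroup G, N₁.Normal → N₂.Normal →
        N₁ ⊓ N₂ ≤ Subgroup.center G → N₁ ≤ Subgroup.center G ∨ N₂ ≤ Subgroup.center G
    swap
    · push Not at hmono
      obtain ⟨N₁, N₂, hn1, hn2, hint, hc1, hc2⟩ := hmono
      exact absurd (h9 p G P N₁ N₂ hn1 hn2 hint (hsup N₁ hn1 hc1) (hsup N₂ hn2 hc2)) hN
    exact hred G hG P ⟨hcyc, hpc, hder, hN, hrad, hsup, hmono⟩
      fun Y _ _ hY h => HI1 Y hY (ha ▸ h)
  exact fun G _ _ hG => key _ _ G hG rfl rfl

/-- the reduction -/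
theorem reduction {C : ∀ (G : Type) [Group G], Prop} (hC : ClsP p C)
    (hred : ∀ (G : Type) [Group G] [Finite G], C G → ∀ P : Sylow p G, Red2 P →
      wt (cl p) G = wt (cl p) (NN P)) :
    ∀ (G : Type) [Group G] [Finite G], C G → Q1 p G :=
  main3 a_S1 a_S2 a_S3 a_S4 a_S4a a_S5 a_S6 a_S7 a_S8 a_S9 a_S12 a_S14 a_S15 a_S16 a_S17
    a_G1 a_G2 a_G3 a_G4 a_G5 hC fun G _ _ hG P hP _ => hred G hG P hP

end

end Pool.Agent.K3h83.PI
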