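import Pool.Agent.K3h83.OP.AsmC
import Pool.Agent.K3h83.PI.RedA

/-!
# The reduction with noncyclic Sylow subgroups, for classes closed under subgroups of index prime to `p`
-/

set_option autoImplicit false
set_option linter.unusedSectionVars false
set_option linter.style.haveILetI false

open scoped BigOperators Classical

noncomputable section

namespace Pool.Agent.K3h83.PI

open Pool.Agent.K3h83.IN
open Pool.Agent.Helper884 Pool.Agent.K3h3.KB Pool.Agent.K3h3.MK
open Pool.Agent.H254R3.IN (IsIrr mem_Irr)
open IC (Irr)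

section

variable {p : ℕ} [hp : Fact p.Prime]

/-- Q1 for all groups of the class follows from Q1 for the reduced pairs with noncyclic Sylow
subgroups. -/
theorem reduction3 (h0 : C0) (hN : CN) {C : ∀ (G : Type) [Group G], Prop} (hC : ClsP p C)
    (hred : ∀ (G : Type) [Group G] [Finite G], C G → ∀ P : Sylow p G, Red2 P → ¬ IsCyclic P →
      wt (cl p) G = wt (cl p) (NN P)) :
    ∀ (G : Type) [Group G] [Finite G], C G → Q1 p G := by
  refine main3 a_S1 a_S2 a_S3 a_S4 a_S4a a_S5 a_S6 a_S7 a_S8 a_S9 a_S12 a_S14 a_S15 a_S16 a_S17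
    a_G1 a_G2 a_G3 a_G4 a_G5 hC fun G _ _ hG P hP hI => ?_
  by_cases hc : IsCyclic P
  swap
  · exact hred G hG P hP hc
  have hdvd : p ∣ Nat.card G := by
    by_contra h
    exact hP.ne (NN_top_of_not_dvd P h)
  obtain ⟨Q, B, H, hPB, hQP, hB, hLC, hE1, hE2⟩ := h0 p G P hc hdvd
  have hZB : Subgroup.center G ≤ B := (le_NN_of_center P le_rfl).trans hPB
  have hBt : B ≠ ⊤ := by
    intro h
    -- `Q` would be normal, so central
    have hQn : Q.Normal := by
      rw [← Subgroup.normalizer_eq_top_iff, ← hB, h]
    have hQc : Nat.card Q = p := by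
      have h1 := hLC.cQ
      rw [← h1]
      refine Nat.card_congr (Subgroup.subgroupOfEquivOfLe ?_).toEquiv.symm
      exact hQP.trans (Subgroup.le_normalizer.trans hPB)
    have hQs : IsSolvable Q := by
      have h1 : IsCyclic Q := isCyclic_of_prime_card hQc
      exact Group.isSolvable_of_comm fun x y => by
        letI := h1.commGroup
        exact mul_comm x y
    exact hP.cop (by
      have := Subgroup.card_dvd_of_le (hP.rad Q hQn hQs)
      rwa [hQc] at this)
  rw [hN p B G _ _ H B.subtype hLC hE1, ← wt_NN_sub P hPB]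
  exact hI B (hC.sub G B (idx P (Subgroup.le_normalizer.trans hPB)) hG) (index_center_lt hZB hBt) _

end

end Pool.Agent.K3h83.PI
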