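import Pool.Agent.K3h83.PI.Red
import Pool.Agent.K3h83.OP.Sub

/-!
# Groups without quotients of a certain type of subgroups of index prime to `p`
-/

set_option autoImplicit false
set_option linter.unusedSectionVars false
set_option linter.style.haveILetI false

open scoped BigOperators Classical

noncomputable section

namespace Pool.Agent.K3h83.PI

open Pool.Agent.K3h83.IN
open Pool.Agent.Helper884 Pool.Agent.K3h3.KB Pool.Agent.K3h3.MK
open Pool.Agent.H254R3.IN (IsIrr mem_Irr)
open IC (Irr)

/-- no homomorphic image of a subgroup of index prime to `p` is of this type -/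
def SeP (p : ℕ) (G : Type) [Group G] : Prop :=
  ∀ (Y : Type) [Group Y] (H : Subgroup G) (f : H →* Y), ¬ p ∣ H.index → Function.Surjective f →
    ¬ Bad p Y

theorem cls_SeP (p : ℕ) [hp : Fact p.Prime] : ClsP p (SeP p) where
  iso := by
    rintro G G' _ _ _ ⟨e⟩ h Y _ H f hi hf
    refine h Y (H.comap e.toMonoidHom) (f.comp (e.toMonoidHom.subgroupComap H)) ?_ ?_
    · rwa [Subgroup.index_comap_of_surjective _ e.surjective]
    · refine hf.comp ?_
      rintro ⟨y, hy⟩
      exact ⟨⟨e.symm y, by simpa using hy⟩, Subtype.ext (e.apply_symm_apply y)⟩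
  sub := by
    intro G _ _ X hX h Y _ H f hi hf
    have e : H ≃* H.map X.subtype := H.equivMapOfInjective X.subtype X.subtype_injective
    refine h Y (H.map X.subtype) (f.comp e.symm.toMonoidHom) ?_ (hf.comp e.symm.surjective)
    rw [Subgroup.index_map_subtype, hp.out.dvd_mul]
    exact fun h' => h'.elim hi hX
  quo := by
    intro G _ _ K _ h Y _ H f hi hf
    refine h Y (H.comap (QuotientGroup.mk' K)) (f.comp ((QuotientGroup.mk' K).subgroupComap H)) ?_ ?_
    · rwa [Subgroup.index_comap_of_surjective _ (QuotientGroup.mk'_surjective K)]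
    · refine hf.comp ?_
      rintro ⟨y, hy⟩
      obtain ⟨g, rfl⟩ := QuotientGroup.mk'_surjective K y
      exact ⟨⟨g, hy⟩, rfl⟩
  ext := by
    intro G _ _ K _ hK _ h Y _ H f hi hf hb
    have hs : Function.Surjective ((QuotientGroup.mk' K).subgroupMap H) :=
      MonoidHom.subgroupMap_surjective _ _
    have hker : ((QuotientGroup.mk' K).subgroupMap H).ker ≤ f.ker := by
      intro x hx
      have h1 : QuotientGroup.mk' K (x : G) = 1 := congrArg Subtype.val hx
      have h2 : (x : G) ∈ Subgroup.center G := hK ((QuotientGroup.eq_one_iff _).mp h1)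
      have h3 : f x ∈ Subgroup.center Y := by
        rw [Subgroup.mem_center_iff]
        intro y
        obtain ⟨z, rfl⟩ := hf y
        rw [← map_mul, ← map_mul]
        congr 1
        exact Subtype.ext (Subgroup.mem_center_iff.mp h2 z)
      rw [hb.center, Subgroup.mem_bot] at h3
      exact h3
    refine h Y (H.map (QuotientGroup.mk' K)) (((QuotientGroup.mk' K).subgroupMap H).liftOfSurjective hs
      ⟨f, hker⟩) ?_ ?_ hb
    · exact fun h' => hi (h'.trans (Subgroup.index_map_dvd H (QuotientGroup.mk'_surjective K)))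
    · intro y
      obtain ⟨z, rfl⟩ := hf y
      exact ⟨_, MonoidHom.liftOfRightInverse_comp_apply _ _ _ ⟨f, hker⟩ z⟩

section

variable {p : ℕ} [hp : Fact p.Prime]

theorem SeP_of_Se {G : Type} [Group G] (h : Se p G) : SeP p G :=
  fun Y _ H f _ hf => h Y H f hf

/-- the equality for groups without such sections -/
theorem sec_main (G : Type) [Group G] [Finite G] (hG : SeP p G) (P : Sylow p G) :
    wt (cl p) G = wt (cl p) (NN P) := by
  refine reduction3 (p := p) a_C0 a_CN (cls_SeP p) (fun X _ _ hX Q hQ hc => ?_) G hG P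
  exfalso
  refine hX (X ⧸ Subgroup.center X) ⊤ ((QuotientGroup.mk' (Subgroup.center X)).comp
    Subgroup.topEquiv.toMonoidHom) ?_ ?_ (bad_of_red Q hQ hc)
  · rw [Subgroup.index_top]
    exact hp.out.one_lt.ne' ∘ Nat.dvd_one.mp
  · exact (QuotientGroup.mk'_surjective _).comp Subgroup.topEquiv.surjective

end

end Pool.Agent.K3h83.PI
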